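import Mathlib
import Pool.Agent.R249.BPB.Main

/-! A universal BPBp-ASE domain which is not uniformly convex (over `ℝ` and over `ℂ`). -/

set_option autoImplicit false

open Filter Topology

namespace Pool.Agent.Results.MP_78fc4b_an.NotUniformlyConvex

universe u v w

/-- `T ∈ ASE(X, Y)`: `T` is absolutely strongly exposing. -/
def IsASE {𝕜 : Type w} [RCLike 𝕜] {X : Type u} {Y : Type v} [NormedAddCommGroup X]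
    [NormedSpace 𝕜 X] [NormedAddCommGroup Y] [NormedSpace 𝕜 Y] (T : X →L[𝕜] Y) : Prop :=
  ∃ x₀ : X, ‖x₀‖ = 1 ∧ ∀ x : ℕ → X, (∀ n, ‖x n‖ ≤ 1) →
    Tendsto (fun n => ‖T (x n)‖) atTop (𝓝 ‖T‖) →
    ∃ (σ : ℕ → ℕ) (c : 𝕜), StrictMono σ ∧ ‖c‖ = 1 ∧
      Tendsto (fun n => x (σ n)) atTop (𝓝 (c • x₀))

/-- The pair `(X, Y)` has the BPBp-ASE. -/
def HasBPBpASE (𝕜 : Type w) [RCLike 𝕜] (X : Type u) (Y : Type v) [NormedAddCommGroup X]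
    [NormedSpace 𝕜 X] [NormedAddCommGroup Y] [NormedSpace 𝕜 Y] : Prop :=
  ∀ ε : ℝ, 0 < ε → ∃ η : ℝ, 0 < η ∧ η < ε ∧
    ∀ T : X →L[𝕜] Y, ‖T‖ = 1 → ∀ x : X, ‖x‖ = 1 → 1 - η < ‖T x‖ →
      ∃ (S : X →L[𝕜] Y) (x₀ : X), IsASE S ∧ ‖x₀‖ = 1 ∧ ‖S‖ = 1 ∧ ‖S x₀‖ = 1 ∧
        ‖S - T‖ < ε ∧ ‖x - x₀‖ < ε

/-- `X` is uniformly convex. -/
def IsUniformlyConvex (X : Type u) [NormedAddCommGroup X] : Prop :=
  ∀ ε : ℝ, 0 < ε → ∃ δ : ℝ, 0 < δ ∧ δ < 1 ∧ ∀ x₁ x₂ : X, ‖x₁‖ = 1 → ‖x₂‖ = 1 →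
    1 - δ < ‖x₁ + x₂‖ / 2 → ‖x₁ - x₂‖ < ε

/-- **Theorem.** Over `𝕜 = ℝ` and over `𝕜 = ℂ` there is a 3-dimensional Banach space `X` which is
not even strictly convex, in particular not uniformly convex, such that `(X, Z)` has the BPBp-ASE
for every normed space `Z`. -/
theorem result (𝕜 : Type w) [RCLike 𝕜] :
    ∃ (X : Type w) (_ : NormedAddCommGroup X) (_ : NormedSpace 𝕜 X),
      CompleteSpace X ∧ Module.finrank 𝕜 X = 3 ∧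
      (∃ x₁ x₂ : X, ‖x₁‖ = 1 ∧ ‖x₂‖ = 1 ∧ ‖x₁ + x₂‖ = 2 ∧ x₁ ≠ x₂) ∧
      ¬ IsUniformlyConvex X ∧
      ∀ (Z : Type v) [NormedAddCommGroup Z] [NormedSpace 𝕜 Z], HasBPBpASE 𝕜 X Z := by
  refine ⟨R249.BPB.XX 𝕜, inferInstance, inferInstance, FiniteDimensional.complete 𝕜 _,
    R249.BPB.finrank_XX 𝕜, R249.BPB.not_uc, ?_, ?_⟩
  · intro h
    obtain ⟨x₁, x₂, h1, h2, h12, hne⟩ := R249.BPB.not_uc (𝕜 := 𝕜)
    have hpos : 0 < ‖x₁ - x₂‖ := norm_pos_iff.2 (sub_ne_zero.2 hne)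
    obtain ⟨δ, hδ, _, hd⟩ := h _ hpos
    exact lt_irrefl _ (hd x₁ x₂ h1 h2 (by rw [h12]; linarith))
  · intro Z _ _
    exact R249.BPB.bpbp_of_propQ R249.BPB.propQ_XX Z

end Pool.Agent.Results.MP_78fc4b_an.NotUniformlyConvex
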